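import Mathlib
import Pool.Agent.Helper16.RC.Defs

set_option autoImplicit false

open MeasureTheory

namespace Pool.Agent.Helper16.RC

theorem pos_aux (hDEC : ST_DEC) {x L : ℝ} (hL : 2 ≤ L) (hx : L ^ 2 ≤ x) :
    - (82 / 100 / L) ≤ J x := by
  have hL0 : 0 < L := by linarith
  have hx2 : 2 ≤ x := by nlinarith
  have h1 := hDEC x hx2
  have h2 : L ≤ √x := Real.le_sqrt_of_sq_le hx
  have h3 : 82 / 100 / √x ≤ 82 / 100 / L := by
    apply div_le_div_of_nonneg_left _ hL0 h2
    norm_num
  have h4 := neg_abs_le (J x)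
  linarith

theorem st_POS (hCH : ST_CH) (hNUM : ST_NUM) (hDEC : ST_DEC) : ST_POS := by
  intro s hs
  rcases lt_or_ge s 40 with h | h
  · -- small `s`
    set k : ℕ := ⌊12 * s⌋₊ with hk
    have h12 : 0 ≤ 12 * s := by linarith
    have hk1 : (k : ℝ) ≤ 12 * s := Nat.floor_le h12
    have hk2 : 12 * s < k + 1 := Nat.lt_floor_add_one (12 * s)
    have hk3 : k < 480 := by
      have : (k : ℝ) < 480 := by linarith
      exact_mod_cast this
    have h1 := hNUM k (by omega)
    have h2 := hNUM (k + 1) (by omega)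
    have h3 := hCH ((k : ℝ) / 12) (((k + 1 : ℕ) : ℝ) / 12) s (by linarith)
      (by push_cast; linarith)
    have h4 : (((k + 1 : ℕ) : ℝ) / 12 - (k : ℝ) / 12) ^ 2 = 1 / 144 := by
      push_cast
      ring
    rw [h4] at h3
    have h5 := le_min h1 h2
    linarith
  · -- large `s`
    have e2 : (1.414 : ℝ) ≤ √2 := Real.le_sqrt_of_sq_le (by norm_num)
    have e5 : (2.236 : ℝ) ≤ √5 := Real.le_sqrt_of_sq_le (by norm_num)
    have e8 : (2.828 : ℝ) ≤ √8 := Real.le_sqrt_of_sq_le (by norm_num)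
    have a1 := pos_aux hDEC (x := s) (L := 6.32) (by norm_num) (by norm_num; linarith)
    have a2 := pos_aux hDEC (x := √2 * s) (L := 7.52) (by norm_num) (by norm_num; nlinarith)
    have a3 := pos_aux hDEC (x := 2 * s) (L := 8.94) (by norm_num) (by norm_num; linarith)
    have a4 := pos_aux hDEC (x := √5 * s) (L := 9.457) (by norm_num) (by norm_num; nlinarith)
    have a5 := pos_aux hDEC (x := √8 * s) (L := 10.63) (by norm_num) (by norm_num; nlinarith)
    unfold F
    norm_num at a1 a2 a3 a4 a5 ⊢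
    linarith

end Pool.Agent.Helper16.RC
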