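import Mathlib
import Pool.Agent.Helper16.RC.Defs

set_option autoImplicit false

open MeasureTheory

namespace Pool.Agent.Helper16.RC

theorem st_CIRC : ST_CIRC := by
  intro w ξ
  unfold J
  congr 1
  -- phase of `w * conj ξ`
  set η : ℂ := w * (starRingEnd ℂ) ξ with hη
  have h1 : ∀ θ : ℝ, (Complex.exp (θ * Complex.I) * w).re * ξ.re +
      (Complex.exp (θ * Complex.I) * w).im * ξ.im = ‖w‖ * ‖ξ‖ * Real.cos (θ + η.arg) := by
    intro θ
    have h2 : (Complex.exp (θ * Complex.I) * w).re * ξ.re +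
        (Complex.exp (θ * Complex.I) * w).im * ξ.im = (Complex.exp (θ * Complex.I) * η).re := by
      rw [hη]
      simp only [Complex.mul_re, Complex.mul_im, Complex.conj_re, Complex.conj_im]
      ring
    have h3 : η = ((‖w‖ * ‖ξ‖ : ℝ) : ℂ) * Complex.exp (η.arg * Complex.I) := by
      conv_lhs => rw [← Complex.norm_mul_exp_arg_mul_I η]
      rw [hη, norm_mul, RCLike.norm_conj]
    rw [h2]
    conv_lhs => rw [h3]
    have h4 : Complex.exp (θ * Complex.I) *
        (((‖w‖ * ‖ξ‖ : ℝ) : ℂ) * Complex.exp (η.arg * Complex.I)) =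
        ((‖w‖ * ‖ξ‖ : ℝ) : ℂ) * Complex.exp (((θ + η.arg : ℝ) : ℂ) * Complex.I) := by
      push_cast
      rw [add_mul, Complex.exp_add]
      ring
    rw [h4, Complex.re_ofReal_mul, Complex.exp_ofReal_mul_I_re]
  have h5 : ∀ θ : ℝ, Real.cos (2 * Real.pi * ((Complex.exp (θ * Complex.I) * w).re * ξ.re +
      (Complex.exp (θ * Complex.I) * w).im * ξ.im)) =
      (fun t : ℝ => Real.cos (2 * Real.pi * (‖w‖ * ‖ξ‖) * Real.sin t))
        (θ + (η.arg + Real.pi / 2)) := by
    intro θ
    simp only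
    rw [h1, ← add_assoc, Real.sin_add_pi_div_two]
    congr 1
    ring
  simp only [h5]
  rw [intervalIntegral.integral_comp_add_right
    (fun t : ℝ => Real.cos (2 * Real.pi * (‖w‖ * ‖ξ‖) * Real.sin t))]
  have hper : Function.Periodic (fun t : ℝ => Real.cos (2 * Real.pi * (‖w‖ * ‖ξ‖) * Real.sin t))
      (2 * Real.pi) := by
    intro t
    simp only [Real.sin_add_two_pi]
  have h6 := hper.intervalIntegral_add_eq (0 + (η.arg + Real.pi / 2)) 0
  rw [zero_add (2 * Real.pi)] at h6
  rw [← h6]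
  congr 1
  ring

end Pool.Agent.Helper16.RC
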